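import Pool.Agent.helper69.DH.SpecR2

/-!
# Project d2: (MP_5823cb_al), part R, row rABL: summation by parts (helper13)
-/

set_option autoImplicit false

open Filter Topology MeasureTheory
open scoped commutatorElement

namespace Pool.Agent.helper90.DH

open Pool.Agent.helper64.D2

theorem rABL_id (a F : ℕ → ℝ) (s0 m : ℕ) (h : s0 ≤ m) :
    ∑ s ∈ Finset.Ico s0 (m + 1), a s * (F (s + 1) - F s) =
      a m * (F (m + 1) - F s0) - ∑ s ∈ Finset.Ico s0 m, (a (s + 1) - a s) * (F (s + 1) - F s0) := by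
  induction m, h using Nat.le_induction with
  | base => simp
  | succ m hm ih =>
    rw [Finset.sum_Ico_succ_top (by omega), ih, Finset.sum_Ico_succ_top hm]
    ring

theorem rABL : rABL_stmt := by
  intro a F s0 n B hn hB
  obtain ⟨m, rfl⟩ : ∃ m, n = m + 1 := ⟨n - 1, by omega⟩
  have hm : s0 ≤ m := by omega
  rw [rABL_id a F s0 m hm, Nat.add_sub_cancel]
  have h1 : |a m * (F (m + 1) - F s0)| ≤ B * |a m| := by
    rw [abs_mul, mul_comm]
    exact mul_le_mul_of_nonneg_right (hB (m + 1) (by omega) le_rfl) (abs_nonneg _)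
  have h2 : |∑ s ∈ Finset.Ico s0 m, (a (s + 1) - a s) * (F (s + 1) - F s0)| ≤ B * ∑ s ∈ Finset.Ico s0 m, |a (s + 1) - a s| := by
    refine (Finset.abs_sum_le_sum_abs _ _).trans ?_
    rw [Finset.mul_sum]
    refine Finset.sum_le_sum fun s hs => ?_
    rw [Finset.mem_Ico] at hs
    rw [abs_mul, mul_comm]
    exact mul_le_mul_of_nonneg_right (hB (s + 1) (by omega) (by omega)) (abs_nonneg _)
  have h3 := abs_sub (a m * (F (m + 1) - F s0)) (∑ s ∈ Finset.Ico s0 m, (a (s + 1) - a s) * (F (s + 1) - F s0))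
  rw [mul_add]
  linarith

end Pool.Agent.helper90.DH
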